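import Pool.Agent.W2helper2.LL.BJStm
import Pool.Agent.W2helper2.LL.Opn

/-!
# Piece DESC: extension of a left `GL₂(R)`-invariant function to the adelic group
-/

set_option autoImplicit false

noncomputable section

namespace Pool.Agent.W2helper98.LL

open IsDedekindDomain Polynomial Matrix WithZero
open Pool.Agent.W2helper63.LL Pool.Agent.W2helper2.LL
open scoped Classical

theorem p_desc : S_DESC := by
  intro _ _ hK f hf
  let P : GA → GL (Fin 2) K → Prop := fun a γ => ∃ u : GL (Fin 2) Af,
    (∀ v : Pl, Integral (GeneralLinearGroup.map (ev v) u)) ∧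
      a.1 = GeneralLinearGroup.map (algebraMap K Af) γ * u
  refine ⟨fun a => if h : ∃ γ, P a γ then
    f (GeneralLinearGroup.map (algebraMap K Kinf) h.choose⁻¹ * a.2) else 0, ?_⟩
  intro γ u g hu
  have h : ∃ γ', P (GeneralLinearGroup.map (algebraMap K Af) γ * u, g) γ' := ⟨γ, u, hu, rfl⟩
  dsimp only
  rw [dif_pos h]
  obtain ⟨u', hu', he⟩ := h.choose_spec
  generalize h.choose = γ' at he
  dsimp only at he
  -- `γ'⁻¹ γ` is integral everywhere
  have h1 : GeneralLinearGroup.map (algebraMap K Af) (γ'⁻¹ * γ) = u' * u⁻¹ := by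
    rw [map_mul, map_inv]
    have : GeneralLinearGroup.map (algebraMap K Af) γ =
        GeneralLinearGroup.map (algebraMap K Af) γ' * u' * u⁻¹ := by
      rw [← he, mul_inv_cancel_right]
    rw [this, mul_assoc, inv_mul_cancel_left]
  have h2 : ∀ v : Pl, Integral (pr v (dg (γ'⁻¹ * γ))) := by
    intro v
    have h3 : pr v (dg (γ'⁻¹ * γ)) =
        GeneralLinearGroup.map (ev v) (GeneralLinearGroup.map (algebraMap K Af) (γ'⁻¹ * γ)) := rfl
    rw [h3, h1, map_mul, map_inv]
    exact intg_mul (hu' v) (intg_inv (hu v))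
  obtain ⟨ρ, hρ⟩ := hK _ h2
  have h4 : GeneralLinearGroup.map (algebraMap K Kinf) γ'⁻¹ * g =
      GeneralLinearGroup.map io ρ * (GeneralLinearGroup.map (algebraMap K Kinf) γ⁻¹ * g) := by
    have h5 : GeneralLinearGroup.map io ρ =
        GeneralLinearGroup.map (algebraMap K Kinf) (γ'⁻¹ * γ) := by
      rw [hρ]
      ext i j
      rfl
    rw [h5, ← mul_assoc, ← map_mul, mul_inv_cancel_right]
  rw [h4, hf]

end Pool.Agent.W2helper98.LL
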